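import Pool.Agent.H43R3.DG.Asm

/-!
# Large prime divisors and large elementary abelian subgroups give small graphs

Copies of two proofs of the starting library (`Pool.Agent.Helper835.Primes.core`,
`Pool.Agent.H43R3.DG.core2`) with weaker hypotheses and stronger conclusions.
-/

set_option autoImplicit false

open Finset

namespace Pool.Agent.Y396.SG

open Pool.Agent.Helper835.Flags Pool.Agent.Helper835.Select Pool.Agent.Helper835.Primes
open Pool.Agent.H43R3.DG

/-- The main group-theoretic statement (`Pool.Agent.Helper835.Primes.core` with weaker hypotheses). -/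
theorem coreP (K : ℕ) (hK : 5 ≤ K) (m₀ : ℕ)
    (hm₀ : ∀ m ≥ m₀, 2 ^ 20 * (4 * (m + 1)) ^ 14 ≤ 2 ^ m)
    (G : Type) [Group G] [Finite G]
    (hω : 22 ≤ ((Nat.card G).primeFactors.filter fun p => K < p).card)
    (hbig : 2 ^ m₀ ≤ Nat.card G) :
    ∃ (a b : ℕ), a * K ≤ Nat.card G ∧ b * K ≤ Nat.card G ∧
    ∃ (W : Type) (_ : Finite W) (X : SimpleGraph W), Nonempty ((X ≃g X) ≃* G) ∧
      Nat.card W = 5 * (a + b) + 5 := by
  classical
  have : Fintype G := Fintype.ofFinite G
  set n := Nat.card G with hn
  have hnf : Fintype.card G = n := by rw [hn, Nat.card_eq_fintype_card]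
  have hnpos : 0 < n := Nat.card_pos
  set PS := n.primeFactors.filter fun p => K < p with hPS
  have hcard : 22 ≤ PS.card := hω
  let f := PS.orderEmbOfFin rfl
  let pr : ℕ → ℕ := fun i => if h : i < PS.card then f ⟨i, h⟩ else 0
  have hpr : ∀ i, i < 22 → ∃ h : i < PS.card, pr i = f ⟨i, h⟩ := by
    intro i hi
    have h : i < PS.card := by omega
    exact ⟨h, dif_pos h⟩
  have hmem : ∀ i, i < 22 → pr i ∈ PS := by
    intro i hi
    obtain ⟨h, e⟩ := hpr i hi
    rw [e]
    exact Finset.orderEmbOfFin_mem _ _ _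
  have hprime : ∀ i, i < 22 → (pr i).Prime := fun i hi =>
    Nat.prime_of_mem_primeFactors (Finset.mem_filter.1 (hmem i hi)).1
  have hdvd : ∀ i, i < 22 → pr i ∣ n := fun i hi =>
    Nat.dvd_of_mem_primeFactors (Finset.mem_filter.1 (hmem i hi)).1
  have hgtK : ∀ i, i < 22 → K < pr i := fun i hi => (Finset.mem_filter.1 (hmem i hi)).2
  have hmono : ∀ i j, i < j → j < 22 → pr i < pr j := by
    intro i j hij hj
    obtain ⟨hi', ei⟩ := hpr i (by omega)
    obtain ⟨hj', ej⟩ := hpr j hj
    rw [ei, ej]
    exact f.strictMono (by simpa using hij)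
  have hinj : ∀ i j, i < 22 → j < 22 → pr i = pr j → i = j := by
    intro i j hi hj h
    rcases lt_trichotomy i j with h' | h' | h'
    · exact absurd h (hmono i j h' hj).ne
    · exact h'
    · exact absurd h (hmono j i h' hi).ne'
  -- products of these primes
  have hprod : ∀ (a b c N : ℕ), b ≤ 22 → 0 < N → (∀ i, a ≤ i → i < b → c ≤ pr i) →
      (∀ i, a ≤ i → i < b → pr i ∣ N) → c ^ (b - a) ≤ N := by
    intro a b c N hb hN hc hd
    have h1 : ∏ p ∈ (Finset.Ico a b).image pr, p ∣ N := by
      apply Finset.prod_primes_dvd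
      · intro p hp
        obtain ⟨i, hi, rfl⟩ := Finset.mem_image.1 hp
        rw [Finset.mem_Ico] at hi
        exact (hprime i (by omega)).prime
      · intro p hp
        obtain ⟨i, hi, rfl⟩ := Finset.mem_image.1 hp
        rw [Finset.mem_Ico] at hi
        exact hd i hi.1 hi.2
    rw [Finset.prod_image (by
      intro i hi j hj h
      rw [Finset.mem_coe, Finset.mem_Ico] at hi hj
      exact hinj i j (by omega) (by omega) h)] at h1
    have h2 : c ^ (b - a) ≤ ∏ i ∈ Finset.Ico a b, pr i := by
      have := Finset.pow_card_le_prod (Finset.Ico a b) pr c (fun i hi => by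
        rw [Finset.mem_Ico] at hi
        exact hc i hi.1 hi.2)
      rwa [Nat.card_Ico] at this
    exact h2.trans (Nat.le_of_dvd hN h1)
  set P := pr 7 with hPdef
  have hP14 : P ^ 14 ≤ n := by
    have := hprod 7 21 P n (by norm_num) hnpos (by
      intro i h1 h2
      rcases Nat.eq_or_lt_of_le h1 with h | h
      · rw [← h]
      · exact (hmono 7 i h (by omega)).le) (fun i _ h2 => hdvd i (by omega))
    exact this
  have hPle : ∀ i, i < 8 → pr i ≤ P := by
    intro i hi
    rcases Nat.eq_or_lt_of_le (Nat.le_of_lt_succ hi) with h | h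
    · rw [h]
    · exact (hmono i 7 h (by norm_num)).le
  have hP2 : 2 ≤ P := (hprime 7 (by norm_num)).two_le
  have hlog : m₀ ≤ Nat.log 2 n := Nat.le_log_of_pow_le (by norm_num) hbig
  have hsz := arith_size hP2 (Nat.pow_log_le_self 2 hnpos.ne') hP14 (hm₀ _ hlog)
  -- general conclusion from two subgroups
  have concl : ∀ (u v : G) (i j : ℕ), i < 8 → j < 8 → i ≠ j → orderOf u = pr i → orderOf v = pr j →
      ∀ b : ℕ, 16 * b ≤ n →
      (∀ H : Fin 2 → Subgroup G, H 0 = Subgroup.zpowers u → H 1 = Subgroup.zpowers v →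
        H 0 ⊓ H 1 = ⊥ → (Finset.univ.filter fun t : G => ¬ Good H t).card ≤ b) →
      ∃ (a b : ℕ), a * K ≤ n ∧ b * K ≤ n ∧
      ∃ (W : Type) (_ : Finite W) (X : SimpleGraph W), Nonempty ((X ≃g X) ≃* G) ∧
        Nat.card W = 5 * (a + b) + 5 := by
    intro u v i j hi hj hij hu hv b hb hbad
    let H : Fin 2 → Subgroup G := ![Subgroup.zpowers u, Subgroup.zpowers v]
    have h0 : H 0 = Subgroup.zpowers u := rfl
    have h1 : H 1 = Subgroup.zpowers v := rfl
    have c0 : Nat.card (H 0) = pr i := by rw [h0, Nat.card_zpowers, hu]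
    have c1 : Nat.card (H 1) = pr j := by rw [h1, Nat.card_zpowers, hv]
    have hcop : Nat.Coprime (pr i) (pr j) :=
      (Nat.coprime_primes (hprime i (by omega)) (hprime j (by omega))).2
        (fun h => hij (hinj i j (by omega) (by omega) h))
    have hH : H 0 ⊓ H 1 = ⊥ := by
      rw [eq_bot_iff]
      intro g hg
      rw [Subgroup.mem_bot]
      have e0 := pow_eq_one_of_mem (K := H 0) hg.1
      have e1 := pow_eq_one_of_mem (K := H 1) hg.2
      rw [c0] at e0
      rw [c1] at e1
      exact eq_one_of_coprime hcop e0 e1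
    have i0 : (H 0).index * pr i = n := by rw [← c0, mul_comm]; exact (H 0).card_mul_index
    have i1 : (H 1).index * pr j = n := by rw [← c1, mul_comm]; exact (H 1).card_mul_index
    have hV : 5 < (H 0).index + (H 1).index := by
      -- pr j divides index of H 0
      have hd : pr j ∣ (H 0).index := by
        have : pr j ∣ (H 0).index * pr i := by rw [i0]; exact hdvd j (by omega)
        exact hcop.symm.dvd_of_dvd_mul_right this
      have hpos : 0 < (H 0).index := Nat.pos_of_ne_zero Subgroup.index_ne_zero_of_finite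
      have h2 := Nat.le_of_dvd hpos hd
      have h3 := hgtK j (by omega)
      omega
    refine ⟨(H 0).index, (H 1).index, ?_, ?_, ?_⟩
    · rw [← i0]
      exact Nat.mul_le_mul_left _ (hgtK i (by omega)).le
    · rw [← i1]
      exact Nat.mul_le_mul_left _ (hgtK j (by omega)).le
    · apply exists_graph_of_good hH b (hbad H h0 h1 hH) _ hV
      have hHF : (HF H).card ≤ 2 * P := by
        have := card_HF_le (H := H)
        rw [c0, c1] at this
        have a1 := hPle i hi
        have a2 := hPle j hj
        omega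
      have hle : ((HF H).card + 4 * (Nat.log 2 (Fintype.card G) + 1)) ^ 7 ≤
          (2 * P + 4 * (Nat.log 2 n + 1)) ^ 7 := by
        rw [hnf]
        exact Nat.pow_le_pow_left (by omega) 7
      rw [hnf] at hle ⊢
      omega
  by_cases hA : ∃ i j : ℕ, i < 8 ∧ j < 8 ∧ i ≠ j ∧ ∃ u v : G, orderOf u = pr i ∧
      orderOf v = pr j ∧ Commute u v
  · obtain ⟨i, j, hi, hj, hij, u, v, hu, hv, huv⟩ := hA
    apply concl u v i j hi hj hij hu hv 0 (by omega)
    intro H h0 h1 hH
    rw [Nat.le_zero, Finset.card_eq_zero, Finset.filter_eq_empty_iff]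
    intro t _
    rw [not_not]
    apply good_of_commute hH
    · rw [h0, h1, Nat.card_zpowers, Nat.card_zpowers, hu, hv]
      exact (Nat.coprime_primes (hprime i (by omega)) (hprime j (by omega))).2
        (fun h => hij (hinj i j (by omega) (by omega) h))
    · intro a ha b hb
      rw [h0] at ha
      rw [h1] at hb
      obtain ⟨k, rfl⟩ := Subgroup.mem_zpowers_iff.1 ha
      obtain ⟨l, rfl⟩ := Subgroup.mem_zpowers_iff.1 hb
      exact (huv.zpow_zpow k l)
  · push Not at hA
    have hcauchy : ∀ i, i < 22 → ∃ u : G, orderOf u = pr i := by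
      intro i hi
      have : Fact (pr i).Prime := ⟨hprime i hi⟩
      exact exists_prime_orderOf_dvd_card' (pr i) (hdvd i hi)
    obtain ⟨u, hu⟩ := hcauchy 0 (by norm_num)
    obtain ⟨v, hv⟩ := hcauchy 1 (by norm_num)
    set p := pr 0 with hp
    set q := pr 1 with hq
    have hpq : p < q := hmono 0 1 (by norm_num) (by norm_num)
    have hq6 : 6 ≤ q := by
      have := hgtK 1 (by norm_num)
      omega
    -- centralizers are small
    have hcent : ∀ w : G, (orderOf w = pr 0 ∨ orderOf w = pr 1) →
        Nat.card (Subgroup.centralizer ({w} : Set G)) ≤ n / q ^ 6 := by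
      intro w hw
      rw [Nat.le_div_iff_mul_le (by positivity)]
      set C := Subgroup.centralizer ({w} : Set G) with hC
      have hCn : Nat.card C * C.index = n := C.card_mul_index
      rw [← hCn]
      apply Nat.mul_le_mul_left
      have hpos : 0 < C.index := Nat.pos_of_ne_zero Subgroup.index_ne_zero_of_finite
      apply hprod 2 8 q C.index (by norm_num) hpos
      · intro i h1 h2
        exact (hmono 1 i (by omega) (by omega)).le
      · intro i h1 h2
        have h3 : pr i ∣ Nat.card C * C.index := by rw [hCn]; exact hdvd i (by omega)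
        rcases (hprime i (by omega)).dvd_mul.1 h3 with h4 | h4
        · exfalso
          have : Fact (pr i).Prime := ⟨hprime i (by omega)⟩
          obtain ⟨x, hx⟩ := exists_prime_orderOf_dvd_card' (pr i) h4
          have hx' : orderOf (x : G) = pr i := by rw [Subgroup.orderOf_coe]; exact hx
          have hcomm : Commute w (x : G) := by
            have h5 : (x : G) ∈ Subgroup.centralizer ({w} : Set G) := x.2
            rw [Subgroup.mem_centralizer_singleton_iff] at h5
            first
              | exact h5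
              | exact h5.symm
          rcases hw with hw | hw
          · exact hA 0 i (by norm_num) h2 (by omega) w x hw hx' hcomm
          · exact hA 1 i (by norm_num) h2 (by omega) w x hw hx' hcomm
        · exact h4
    have hb : 16 * ((p + q) * (p * q) * (n / q ^ 6)) ≤ n := by
      have h1 : (p + q) * (p * q) ≤ 2 * q ^ 3 := by
        calc (p + q) * (p * q) ≤ (q + q) * (q * q) := by
              apply Nat.mul_le_mul
              · omega
              · exact Nat.mul_le_mul_right _ hpq.le
          _ = 2 * q ^ 3 := by ring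
      have h2 : 32 ≤ q ^ 3 := by
        calc 32 ≤ 6 ^ 3 := by norm_num
          _ ≤ q ^ 3 := Nat.pow_le_pow_left hq6 3
      calc 16 * ((p + q) * (p * q) * (n / q ^ 6)) ≤ 16 * (2 * q ^ 3 * (n / q ^ 6)) := by
            apply Nat.mul_le_mul_left
            exact Nat.mul_le_mul_right _ h1
        _ = 32 * (q ^ 3 * (n / q ^ 6)) := by ring
        _ ≤ q ^ 3 * (q ^ 3 * (n / q ^ 6)) := Nat.mul_le_mul_right _ h2
        _ = q ^ 6 * (n / q ^ 6) := by ring
        _ ≤ n := Nat.mul_div_le n (q ^ 6)
    apply concl u v 0 1 (by norm_num) (by norm_num) (by norm_num) hu hv _ hb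
    intro H h0 h1 hH
    have c0 : Nat.card (H 0) = p := by rw [h0, Nat.card_zpowers, hu]
    have c1 : Nat.card (H 1) = q := by rw [h1, Nat.card_zpowers, hv]
    have hbad := card_bad_le hH (n / q ^ 6) (by
      intro i w hw hw1
      apply hcent
      fin_cases i
      · left
        have h2 : w ^ Nat.card (H 0) = 1 := pow_eq_one_of_mem hw
        rw [c0] at h2
        have h3 := orderOf_dvd_of_pow_eq_one h2
        exact ((Nat.dvd_prime (hprime 0 (by norm_num))).1 h3).resolve_left
          (fun h => hw1 (orderOf_eq_one_iff.1 h))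
      · right
        have h2 : w ^ Nat.card (H 1) = 1 := pow_eq_one_of_mem hw
        rw [c1] at h2
        have h3 := orderOf_dvd_of_pow_eq_one h2
        exact ((Nat.dvd_prime (hprime 1 (by norm_num))).1 h3).resolve_left
          (fun h => hw1 (orderOf_eq_one_iff.1 h)))
    rw [c0, c1] at hbad
    exact hbad


theorem core2P (hAVG : TaskAVG) (K : ℕ) (hK : 5 ≤ K) (m₀ : ℕ)
    (hm₀ : ∀ m ≥ m₀, 2 ^ 20 * (4 * (m + 1)) ^ 14 ≤ 2 ^ m)
    (G : Type) [Group G] [Finite G] (p : ℕ) [hp : Fact p.Prime] (E : Subgroup G)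
    (hc : ∀ a ∈ E, ∀ b ∈ E, a * b = b * a) (he : ∀ a ∈ E, a ^ p = 1) (s : ℕ)
    (hcard : Nat.card E = p ^ s) (hs : 14 * K + 6 + m₀ ≤ s) :
    ∃ (a b : ℕ), a * p ^ K = Nat.card G ∧ b * p ^ K = Nat.card G ∧
    ∃ (W : Type) (_ : Finite W) (X : SimpleGraph W), Nonempty ((X ≃g X) ≃* G) ∧
      Nat.card W = 5 * (a + b) + 5 := by
  classical
  have : Fintype G := Fintype.ofFinite G
  set n := Nat.card G with hn
  have hnf : Fintype.card G = n := by rw [hn, Nat.card_eq_fintype_card]
  have hnpos : 0 < n := Nat.card_pos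
  have hp2 : 2 ≤ p := hp.out.two_le
  obtain ⟨H, hH, hHc, b, hb, hbad⟩ := exists_pair hAVG p E hc he K s hcard (by omega)
  set P := p ^ K with hP
  have hP2 : 2 ≤ P := by
    calc 2 ≤ p := hp2
      _ = p ^ 1 := (pow_one p).symm
      _ ≤ p ^ K := Nat.pow_le_pow_right (by omega) (by omega)
  have hPK : K ≤ P := by
    calc K ≤ 2 ^ K := Nat.lt_two_pow_self.le
      _ ≤ p ^ K := Nat.pow_le_pow_left hp2 K
  have hsn : p ^ s ≤ n := by
    rw [← hcard, hn]
    exact Subgroup.card_le_card_group E
  have hPn : P ^ 14 ≤ n := by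
    calc P ^ 14 = p ^ (K * 14) := by rw [hP, ← pow_mul]
      _ ≤ p ^ s := Nat.pow_le_pow_right (by omega) (by omega)
      _ ≤ n := hsn
  have hlog : m₀ ≤ Nat.log 2 n := by
    have h1 : 2 ^ s ≤ n := (Nat.pow_le_pow_left hp2 s).trans hsn
    have h3 := Nat.le_log_of_pow_le (by norm_num) h1
    omega
  have hsz := arith_size hP2 (Nat.pow_log_le_self 2 hnpos.ne') hPn (hm₀ _ hlog)
  have hi : ∀ i, (H i).index * P = n := by
    intro i
    rw [← hHc i, mul_comm]; exact (H i).card_mul_index
  have hV : 5 < (H 0).index + (H 1).index := by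
    have h1 : p ^ (s - K) * P ≤ (H 0).index * P := by
      rw [hi 0, hP, ← pow_add, Nat.sub_add_cancel (by omega)]; exact hsn
    have h2 : p ^ (s - K) ≤ (H 0).index := Nat.le_of_mul_le_mul_right h1 (by omega)
    have h3 : 2 ^ 6 ≤ p ^ (s - K) := by
      calc 2 ^ 6 ≤ p ^ 6 := Nat.pow_le_pow_left hp2 6
        _ ≤ p ^ (s - K) := Nat.pow_le_pow_right (by omega) (by omega)
    omega
  refine ⟨(H 0).index, (H 1).index, ?_, ?_, ?_⟩
  · exact hi 0
  · exact hi 1
  · apply exists_graph_of_good hH b hbad _ hV
    have hHF : (HF H).card ≤ 2 * P := by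
      have := card_HF_le (H := H)
      rw [hHc 0, hHc 1] at this
      omega
    have hle : ((HF H).card + 4 * (Nat.log 2 (Fintype.card G) + 1)) ^ 7 ≤
        (2 * P + 4 * (Nat.log 2 n + 1)) ^ 7 := by
      rw [hnf]
      exact Nat.pow_le_pow_left (by omega) 7
    rw [hnf] at hle hb ⊢
    omega


end Pool.Agent.Y396.SG
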