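import Pool.Agent.Y396.SG.Rank
import Pool.Agent.Y396.SG.Core
import Pool.Agent.H43R3.DG.T_ABEL
import Pool.Agent.H43R3.DG.T_SYL
import Pool.Agent.H658R3.DG_MAX
import Pool.Agent.H888R3.DG.T_AVG

/-!
# Explicit bounds for the number of vertices of a graph with a given automorphism group
-/

set_option autoImplicit false

namespace Pool.Agent.Y396.SG

open Pool.Agent.H43R3.DG

/-- the elementary inequality used for the choice of a rigid set, with an explicit constant -/
lemma growth : ∀ m ≥ 150, 2 ^ 20 * (4 * (m + 1)) ^ 14 ≤ 2 ^ m := by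
  intro m hm
  induction m, hm using Nat.le_induction with
  | base => norm_num
  | succ m hm ih =>
    have h1 : (m + 2) * 151 ≤ (m + 1) * 152 := by omega
    have h2 : ((m + 2) * 151) ^ 14 ≤ ((m + 1) * 152) ^ 14 := Nat.pow_le_pow_left h1 14
    have h3 : 152 ^ 14 ≤ 2 * 151 ^ 14 := by norm_num
    have h4 : (m + 2) ^ 14 ≤ 2 * (m + 1) ^ 14 := by
      have h5 : (m + 2) ^ 14 * 151 ^ 14 ≤ (2 * (m + 1) ^ 14) * 151 ^ 14 := by
        calc (m + 2) ^ 14 * 151 ^ 14 = ((m + 2) * 151) ^ 14 := (mul_pow _ _ _).symm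
          _ ≤ ((m + 1) * 152) ^ 14 := h2
          _ = (m + 1) ^ 14 * 152 ^ 14 := mul_pow _ _ _
          _ ≤ (m + 1) ^ 14 * (2 * 151 ^ 14) := Nat.mul_le_mul_left _ h3
          _ = (2 * (m + 1) ^ 14) * 151 ^ 14 := by ring
      exact Nat.le_of_mul_le_mul_right h5 (by positivity)
    calc 2 ^ 20 * (4 * (m + 1 + 1)) ^ 14 = 2 ^ 20 * (4 ^ 14 * (m + 2) ^ 14) := by
          rw [← mul_pow]
      _ ≤ 2 ^ 20 * (4 ^ 14 * (2 * (m + 1) ^ 14)) := by gcongr
      _ = 2 * (2 ^ 20 * (4 * (m + 1)) ^ 14) := by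
          rw [mul_pow 4 (m + 1) 14]
          ring
      _ ≤ 2 * 2 ^ m := Nat.mul_le_mul_left _ ih
      _ = 2 ^ (m + 1) := by ring

/-- part 1: at least 22 prime divisors greater than `K` -/
theorem part1 (K : ℕ) (hK : 128 ≤ K) (G : Type) [Group G] [Finite G]
    (h22 : 22 ≤ ((Nat.card G).primeFactors.filter fun p => K < p).card) :
    ∃ (V : Type) (_ : Finite V) (X : SimpleGraph V), Nonempty ((X ≃g X) ≃* G) ∧
      Nat.card V * K ≤ 11 * Nat.card G := by
  set n := Nat.card G with hn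
  have hnpos : 0 < n := Nat.card_pos
  set PS := n.primeFactors.filter fun p => K < p with hPS
  have h1 : (K + 1) ^ PS.card ≤ ∏ p ∈ PS, p :=
    Finset.pow_card_le_prod _ _ _ (fun p hp => (Finset.mem_filter.1 hp).2)
  have h2 : ∏ p ∈ PS, p ∣ n :=
    (Finset.prod_dvd_prod_of_subset _ _ _ (Finset.filter_subset _ _)).trans
      (Nat.prod_primeFactors_dvd n)
  have h3 : (K + 1) ^ 22 ≤ n :=
    ((Nat.pow_le_pow_right (by omega) h22).trans h1).trans (Nat.le_of_dvd hnpos h2)
  have h4 : 2 ^ 150 ≤ n := by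
    calc 2 ^ 150 ≤ 129 ^ 22 := by norm_num
      _ ≤ (K + 1) ^ 22 := Nat.pow_le_pow_left (by omega) 22
      _ ≤ n := h3
  have h5 : 5 * K ≤ n := by
    calc 5 * K ≤ 129 ^ 21 * (K + 1) := Nat.mul_le_mul (by norm_num) (by omega)
      _ ≤ (K + 1) ^ 21 * (K + 1) :=
          Nat.mul_le_mul_right _ (Nat.pow_le_pow_left (by omega) 21)
      _ = (K + 1) ^ 22 := (pow_succ _ _).symm
      _ ≤ n := h3
  obtain ⟨a, b, ha, hb, W, hW, X, hX, hc⟩ := coreP K (by omega) 150 growth G h22 h4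
  refine ⟨W, hW, X, hX, ?_⟩
  rw [hc]
  calc (5 * (a + b) + 5) * K = 5 * (a * K) + 5 * (b * K) + 5 * K := by ring
    _ ≤ 5 * n + 5 * n + n := Nat.add_le_add (Nat.add_le_add (Nat.mul_le_mul_left _ ha)
        (Nat.mul_le_mul_left _ hb)) h5
    _ = 11 * n := by ring

/-- part 2: the number of vertices is at most `13 |G| / ω(G)` -/
theorem part2 (G : Type) [Group G] [Finite G] (hω : 151 ≤ (Nat.card G).primeFactors.card) :
    ∃ (V : Type) (_ : Finite V) (X : SimpleGraph V), Nonempty ((X ≃g X) ≃* G) ∧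
      Nat.card V * (Nat.card G).primeFactors.card ≤ 13 * Nat.card G := by
  set n := Nat.card G with hn
  obtain ⟨K, hK⟩ : ∃ K, n.primeFactors.card = K + 23 := ⟨n.primeFactors.card - 23, by omega⟩
  have h1 := Pool.Agent.Helper835.Primes.card_primes_large n K
  obtain ⟨W, hW, X, hX, hc⟩ := part1 K (by omega) G (by rw [← hn]; omega)
  refine ⟨W, hW, X, hX, ?_⟩
  rw [← hn] at hc
  rw [hK]
  have h2 : Nat.card W * (K + 23) * K ≤ 13 * n * K := by
    calc Nat.card W * (K + 23) * K = (Nat.card W * K) * (K + 23) := by ring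
      _ ≤ (11 * n) * (K + 23) := Nat.mul_le_mul_right _ hc
      _ = n * (11 * (K + 23)) := by ring
      _ ≤ n * (13 * K) := Nat.mul_le_mul_left _ (by omega)
      _ = 13 * n * K := by ring
  exact Nat.le_of_mul_le_mul_right h2 (by omega)

/-- part 2', with the primes: if `|G|` has `k ≥ 53` prime divisors, then there is a graph with at
most `11 |G| / (q - 1)` vertices, where `q` is the `(k - 21)`-th prime -/
theorem part2' (G : Type) [Group G] [Finite G] (hω : 53 ≤ (Nat.card G).primeFactors.card) :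
    ∃ (V : Type) (_ : Finite V) (X : SimpleGraph V), Nonempty ((X ≃g X) ≃* G) ∧
      Nat.card V * (Nat.nth Nat.Prime ((Nat.card G).primeFactors.card - 22) - 1) ≤
        11 * Nat.card G := by
  classical
  set n := Nat.card G with hn
  obtain ⟨m, hm⟩ : ∃ m, n.primeFactors.card = m + 22 := ⟨n.primeFactors.card - 22, by omega⟩
  rw [hm, Nat.add_sub_cancel]
  set q := Nat.nth Nat.Prime m with hq
  have hinf : (setOf Nat.Prime).Infinite := Nat.infinite_setOf_prime
  have hc129 : Nat.count Nat.Prime 129 = 31 := by decide +kernel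
  have hq129 : 129 ≤ q := by
    rw [hq, ← Nat.count_le_iff_le_nth hinf, hc129]
    omega
  have hcount : Nat.count Nat.Prime q = m := Nat.count_nth_of_infinite hinf m
  apply part1 (q - 1) (by omega) G
  rw [← hn]
  have h1 := Finset.card_filter_add_card_filter_not (s := n.primeFactors) (fun p => q - 1 < p)
  have h2 : (n.primeFactors.filter fun p => ¬ q - 1 < p).card ≤ m := by
    rw [← hcount, Nat.count_eq_card_filter_range]
    apply Finset.card_le_card
    intro p hp
    rw [Finset.mem_filter] at hp ⊢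
    rw [Finset.mem_range]
    exact ⟨by omega, Nat.prime_of_mem_primeFactors hp.1⟩
  omega

/-- part 3: an elementary abelian subgroup of order at least `p ^ (14 K + 226)` -/
theorem part3 (G : Type) [Group G] [Finite G] (p : ℕ) [hp : Fact p.Prime] (E : Subgroup G)
    (hc : ∀ a ∈ E, ∀ b ∈ E, a * b = b * a) (he : ∀ a ∈ E, a ^ p = 1) (K s : ℕ)
    (hcard : Nat.card E = p ^ s) (hs : 14 * K + 226 ≤ s) :
    ∃ (V : Type) (_ : Finite V) (X : SimpleGraph V), Nonempty ((X ≃g X) ≃* G) ∧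
      Nat.card V * p ^ K ≤ Nat.card G := by
  obtain ⟨a, b, ha, hb, W, hW, X, hX, hcW⟩ := core2P Pool.Agent.H888R3.DG.avg (K + 5) (by omega)
    150 growth G p E hc he s hcard (by omega)
  refine ⟨W, hW, X, hX, ?_⟩
  set n := Nat.card G with hn
  have hp2 : 2 ≤ p := hp.out.two_le
  have h1 : p ^ s ≤ n := by
    rw [← hcard, hn]
    exact Subgroup.card_le_card_group E
  have h2 : 5 * p ^ (K + 5) ≤ n := by
    calc 5 * p ^ (K + 5) ≤ 2 ^ 3 * p ^ (K + 5) := Nat.mul_le_mul_right _ (by norm_num)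
      _ ≤ p ^ 3 * p ^ (K + 5) := Nat.mul_le_mul_right _ (Nat.pow_le_pow_left hp2 3)
      _ = p ^ (K + 8) := by rw [← pow_add]; congr 1; omega
      _ ≤ p ^ s := Nat.pow_le_pow_right (by omega) (by omega)
      _ ≤ n := h1
  have h3 : Nat.card W * p ^ (K + 5) ≤ 11 * n := by
    rw [hcW]
    calc (5 * (a + b) + 5) * p ^ (K + 5) =
        5 * (a * p ^ (K + 5)) + 5 * (b * p ^ (K + 5)) + 5 * p ^ (K + 5) := by ring
      _ ≤ 5 * n + 5 * n + n := by rw [ha, hb]; omega
      _ = 11 * n := by ring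
  have h4 : (Nat.card W * p ^ K) * 32 ≤ n * 32 := by
    calc (Nat.card W * p ^ K) * 32 = (Nat.card W * p ^ K) * 2 ^ 5 := by norm_num
      _ ≤ (Nat.card W * p ^ K) * p ^ 5 := Nat.mul_le_mul_left _ (Nat.pow_le_pow_left hp2 5)
      _ = Nat.card W * p ^ (K + 5) := by rw [pow_add, mul_assoc]
      _ ≤ 11 * n := h3
      _ ≤ n * 32 := by omega
  exact Nat.le_of_mul_le_mul_right h4 (by norm_num)

/-- part 4: a subgroup which needs many generators -/
theorem part4 (M : ℕ) (hM : 151 ≤ M) (G : Type) [Group G] [Finite G] (H : Subgroup G)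
    (hH : 4 * (14 * Nat.log 2 M + 240) ^ 2 * M ≤ Group.rank H) :
    ∃ (V : Type) (_ : Finite V) (X : SimpleGraph V), Nonempty ((X ≃g X) ≃* G) ∧
      Nat.card V * M ≤ 13 * Nat.card G := by
  by_cases hω : M ≤ (Nat.card G).primeFactors.card
  · obtain ⟨W, hW, X, hX, hc⟩ := part2 G (by omega)
    exact ⟨W, hW, X, hX, (Nat.mul_le_mul_left _ hω).trans hc⟩
  set s := 14 * Nat.log 2 M + 240 with hs
  by_cases hP : ∀ (p : ℕ) [Fact p.Prime] (P : Sylow p H), GenBy P (s + (s * s + 2 * (s * s)))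
  · exfalso
    obtain ⟨S, hS, hS2⟩ := taskSYL H (s + (s * s + 2 * (s * s))) hP
    have h1 : Group.rank H ≤ S.card := Group.rank_le hS2
    have h2 : (Nat.card H).primeFactors.card ≤ (Nat.card G).primeFactors.card :=
      Finset.card_le_card (Nat.primeFactors_mono (Subgroup.card_subgroup_dvd_card H)
        Nat.card_pos.ne')
    have h3 : (s + (s * s + 2 * (s * s))) * (Nat.card H).primeFactors.card ≤
        (s + (s * s + 2 * (s * s))) * (M - 1) := Nat.mul_le_mul_left _ (by omega)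
    have h4 : (s + (s * s + 2 * (s * s))) * (M - 1) ≤ 4 * s ^ 2 * (M - 1) := by
      apply Nat.mul_le_mul_right
      nlinarith
    have h5 : 4 * s ^ 2 * (M - 1) < 4 * s ^ 2 * M := by
      apply Nat.mul_lt_mul_of_pos_left
      · omega
      · positivity
    omega
  · push Not at hP
    obtain ⟨p, hp, P, hP⟩ := hP
    rcases rankX Pool.Agent.H658R3.DGMAX.taskMAX ABEL.taskABEL s p P P.isPGroup' with
      h3 | ⟨E, hE1, hE2, hE3⟩
    · exact absurd h3 hP
    · let E' : Subgroup G := (E.map P.1.subtype).map H.subtype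
      obtain ⟨W, hW, X, hX, hc⟩ := part3 G p E' (by
          rintro _ ⟨_, ⟨a, ha, rfl⟩, rfl⟩ _ ⟨_, ⟨b, hb, rfl⟩, rfl⟩
          rw [← map_mul, ← map_mul, ← map_mul, ← map_mul, hE1 a ha b hb])
        (by
          rintro _ ⟨_, ⟨a, ha, rfl⟩, rfl⟩
          rw [← map_pow, ← map_pow, hE2 a ha, map_one, map_one])
        (Nat.log 2 M + 1) s (by
          rw [Subgroup.card_map_of_injective H.subtype_injective,
            Subgroup.card_map_of_injective P.1.subtype_injective, hE3]) (by omega)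
      refine ⟨W, hW, X, hX, ?_⟩
      have h1 : M ≤ p ^ (Nat.log 2 M + 1) :=
        (Nat.lt_pow_succ_log_self (by norm_num) M).le.trans
          (Nat.pow_le_pow_left hp.out.two_le _)
      calc Nat.card W * M ≤ Nat.card W * p ^ (Nat.log 2 M + 1) := Nat.mul_le_mul_left _ h1
        _ ≤ Nat.card G := hc
        _ ≤ 13 * Nat.card G := by omega

/-- part 5: the qualitative form -/
theorem part5 (ε : ℝ) (hε : 0 < ε) : ∃ N : ℕ, ∀ (G : Type) [Group G] [Finite G],
    (N ≤ (Nat.card G).primeFactors.card ∨ N ≤ Group.rank G ∨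
      ∃ H : Subgroup G, N ≤ Group.rank H) →
    ∃ (V : Type) (_ : Finite V) (X : SimpleGraph V), Nonempty ((X ≃g X) ≃* G) ∧
      (Nat.card V : ℝ) < ε * Nat.card G := by
  obtain ⟨M, hM1, hM2⟩ : ∃ M : ℕ, 151 ≤ M ∧ 13 < ε * M := by
    obtain ⟨m, hm⟩ := exists_nat_gt (13 / ε)
    refine ⟨m + 151, by omega, ?_⟩
    rw [div_lt_iff₀ hε] at hm
    push_cast
    nlinarith
  refine ⟨4 * (14 * Nat.log 2 M + 240) ^ 2 * M, ?_⟩
  have hMN : M ≤ 4 * (14 * Nat.log 2 M + 240) ^ 2 * M := by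
    have : 0 < 4 * (14 * Nat.log 2 M + 240) ^ 2 := by positivity
    exact Nat.le_mul_of_pos_left _ this
  have concl : ∀ (G : Type) [Group G] [Finite G], (∃ (V : Type) (_ : Finite V) (X : SimpleGraph V),
      Nonempty ((X ≃g X) ≃* G) ∧ Nat.card V * M ≤ 13 * Nat.card G) →
      ∃ (V : Type) (_ : Finite V) (X : SimpleGraph V), Nonempty ((X ≃g X) ≃* G) ∧
        (Nat.card V : ℝ) < ε * Nat.card G := by
    rintro G _ _ ⟨V, hV, X, hX, hc⟩
    refine ⟨V, hV, X, hX, ?_⟩
    have h1 : (Nat.card V : ℝ) * M ≤ 13 * Nat.card G := by exact_mod_cast hc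
    have h2 : (0 : ℝ) < Nat.card G := by exact_mod_cast Nat.card_pos
    have h3 : (0 : ℝ) < M := by
      have : 0 < M := by omega
      exact_mod_cast this
    have h4 : (Nat.card V : ℝ) * M < (ε * Nat.card G) * M := by
      calc (Nat.card V : ℝ) * M ≤ 13 * Nat.card G := h1
        _ < (ε * M) * Nat.card G := mul_lt_mul_of_pos_right hM2 h2
        _ = (ε * Nat.card G) * M := by ring
    exact lt_of_mul_lt_mul_right h4 h3.le
  intro G _ _ hG
  apply concl
  rcases hG with h | h | ⟨H, h⟩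
  · obtain ⟨W, hW, X, hX, hc⟩ := part2 G (by omega)
    exact ⟨W, hW, X, hX, (Nat.mul_le_mul_left _ (hMN.trans h)).trans hc⟩
  · apply part4 M hM1 G ⊤
    rwa [Group.rank_congr Subgroup.topEquiv]
  · exact part4 M hM1 G H h

end Pool.Agent.Y396.SG
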