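import Pool.Agent.H43R3.DG.Stmts
import Pool.Agent.H773.DG.Aut

/-!
# Explicit bounds for the number of generators of `p`-groups

Explicit versions of `Pool.Agent.H773.DG.taskAUT` and `Pool.Agent.H948R3.DG.taskRANK` (the same
proofs).
-/

set_option autoImplicit false
set_option maxHeartbeats 4000000

namespace Pool.Agent.Y396.SG

open Pool.Agent.H43R3.DG Pool.Agent.H773.DG
open scoped IsMulCommutative

theorem autX (hAB : TaskABEL) : ∀ (p : ℕ) [Fact p.Prime] (A : Type) [CommGroup A] [Finite A],
    IsPGroup p A → ∀ k : ℕ, Nat.card {a : A // a ^ p = 1} ≤ p ^ k →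
    ∀ (Q : Type) [Group Q] [Finite Q] (ρ : Q →* MulAut A), Function.Injective ρ → IsPGroup p Q →
      GenBy Q (k * k + 2 * (k * k)) := by
  classical
  intro p hp A _ _ hA k hk Q _ _ ρ hρ hQ
  set R := AddMonoid.End (Additive A) with hR
  have hfinR : Finite R := DFunLike.finite _
  have htor := torsion_card hk (hAB p A hA k hk)
  set φ : Q → R := fun q => toEnd (ρ q) with hφ
  have φmul : ∀ a b, φ (a * b) = φ a * φ b := by
    intro a b; simp only [hφ, map_mul, toEnd_mul]
  have φone : φ 1 = 1 := by simp only [hφ, map_one, toEnd_one]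
  have φinj : Function.Injective φ := fun a b h => hρ (toEnd_inj h)
  have φpow : ∀ a (n : ℕ), φ (a ^ n) = φ a ^ n := by
    intro a n
    induction n with
    | zero => rw [pow_zero, pow_zero, φone]
    | succ n ih => rw [pow_succ, pow_succ, φmul, ih]
  -- `p`-power torsion
  obtain ⟨N, hN⟩ := IsPGroup.iff_card.mp hA
  have hNR : ∀ r : R, (p ^ N) • r = 0 := by
    intro r
    apply AddMonoidHom.ext
    intro a
    have h1 : (p ^ N) • (r a) = 0 := by
      rw [← hN]
      have : Nat.card A = Nat.card (Additive A) := rfl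
      rw [this]
      exact card_nsmul_eq_zero'
    exact h1
  -- the subgroup
  let C : Subgroup Q :=
    { carrier := {q | One2 p (φ q)}
      one_mem' := by
        show One2 p (φ 1)
        rw [φone]; exact One2.one p
      mul_mem' := by
        intro a b ha hb
        show One2 p (φ (a * b))
        rw [φmul]; exact One2.mul ha hb
      inv_mem' := by
        intro a ha
        show One2 p (φ a⁻¹)
        have h1 : a⁻¹ = a ^ (Nat.card Q - 1) := by
          symm
          apply eq_inv_of_mul_eq_one_left
          rw [← pow_succ, Nat.sub_add_cancel Nat.card_pos]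
          exact pow_card_eq_one'
        rw [h1, φpow]
        exact One2.pow ha _ }
  have hCmem : ∀ q, q ∈ C ↔ One2 p (φ q) := fun q => Iff.rfl
  -- index of `C`
  let f : R →+ R := nsmulAddMonoidHom (p ^ 2)
  have hf : ∀ r, f r = (p ^ 2) • r := fun r => rfl
  have hidx : Nat.card (Q ⧸ C) ≤ Nat.card (R ⧸ f.range) := by
    apply Nat.card_le_card_of_injective (fun c => ((φ (Quotient.out c) : R) : R ⧸ f.range))
    intro c c' hcc
    simp only at hcc
    rw [QuotientAddGroup.eq] at hcc
    obtain ⟨t, ht⟩ := hcc
    rw [hf] at ht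
    have h1 : (Quotient.out c)⁻¹ * Quotient.out c' ∈ C := by
      rw [hCmem, φmul]
      refine ⟨φ (Quotient.out c)⁻¹ * t, ?_⟩
      have h2 : φ (Quotient.out c') = φ (Quotient.out c) + (p ^ 2) • t := by
        rw [ht]; abel
      rw [h2, mul_add, ← φmul, inv_mul_cancel, φone, mul_smul_comm]
    have h3 : ((Quotient.out c : Q) : Q ⧸ C) = ((Quotient.out c' : Q) : Q ⧸ C) :=
      QuotientGroup.eq.mpr h1
    rwa [QuotientGroup.out_eq', QuotientGroup.out_eq'] at h3
  have hker : Nat.card (R ⧸ f.range) = Nat.card f.ker := by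
    have e1 := AddSubgroup.card_eq_card_quotient_mul_card_addSubgroup f.range
    have e2 := AddSubgroup.card_eq_card_quotient_mul_card_addSubgroup f.ker
    have e3 : Nat.card (R ⧸ f.ker) = Nat.card f.range :=
      Nat.card_congr (QuotientAddGroup.quotientKerEquivRange f).toEquiv
    rw [e3] at e2
    rw [e2, mul_comm] at e1
    exact (Nat.eq_of_mul_eq_mul_right Nat.card_pos e1).symm
  have hker2 : Nat.card f.ker ≤ Nat.card {r : R // p • r = 0} * Nat.card {r : R // p • r = 0} := by
    apply inj_bound (R := R) (Y := {r : R // p • r = 0})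
      (fun x : f.ker => (⟨p • (x : R), by
        have := x.2
        rw [AddMonoidHom.mem_ker, hf] at this
        rw [smul_smul, ← pow_two]; exact this⟩ : {r : R // p • r = 0}))
      (fun x => (x : R)) Subtype.val_injective (fun r => p • r = 0)
    intro x x0 h
    simp only [Subtype.mk.injEq] at h
    have h4 : p • ((x : R) - (x0 : R)) = p • (x : R) - p • (x0 : R) := nsmul_sub _ _ _
    exact h4.trans (sub_eq_zero.mpr h)
  have hQC : Nat.card Q ≤ p ^ (2 * (k * k)) * Nat.card C := by
    rw [Subgroup.card_eq_card_quotient_mul_card_subgroup C]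
    apply Nat.mul_le_mul_right
    calc Nat.card (Q ⧸ C) ≤ Nat.card f.ker := hidx.trans hker.le
      _ ≤ p ^ (k * k) * p ^ (k * k) := hker2.trans (Nat.mul_le_mul htor htor)
      _ = p ^ (2 * (k * k)) := by rw [← pow_add]; congr 1; ring
  -- generation of `C`
  have hCp : IsPGroup p C := hQ.to_subgroup C
  have hCgen : ∃ T : Finset C, T.card ≤ k * k ∧ Subgroup.closure (T : Set C) = ⊤ := by
    apply gen_of_pow hCp
    have h1 : Nat.card C ≤
        Nat.card (Subgroup.closure (Set.range fun x : C => x ^ p)) *
          Nat.card {r : R // p • r = 0} := by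
      apply inj_bound (R := R)
        (fun x : C => (⟨x ^ p, Subgroup.subset_closure ⟨x, rfl⟩⟩ :
          Subgroup.closure (Set.range fun x : C => x ^ p)))
        (fun x => φ (x : Q)) (φinj.comp Subtype.val_injective) (fun r => p • r = 0)
      intro x x0 h
      simp only [Subtype.mk.injEq] at h
      have h2 : ((x : Q)) ^ p = ((x0 : Q)) ^ p := by
        have := congrArg (fun z : C => (z : Q)) h
        simpa using this
      apply key x.2 x0.2 N hNR
      rw [← φpow, ← φpow, h2]
    rw [mul_comm]
    exact h1.trans (Nat.mul_le_mul_left _ htor)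
  exact gen_of_index hQ C (k * k) (2 * (k * k)) hQC hCgen


theorem rankX (hMAX : TaskMAX) (hABEL : TaskABEL) : ∀ (s p : ℕ) [Fact p.Prime] (P : Type)
    [Group P] [Finite P], IsPGroup p P →
    GenBy P (s + (s * s + 2 * (s * s))) ∨ ∃ E : Subgroup P, (∀ a ∈ E, ∀ b ∈ E, a * b = b * a) ∧
      (∀ a ∈ E, a ^ p = 1) ∧ Nat.card E = p ^ s := by
  have hg := autX hABEL
  intro s p _ P _ _ hP
  classical
  obtain ⟨A, hAn, hAc, hAz⟩ := hMAX p P hP
  haveI := hAn
  haveI : IsMulCommutative A := ⟨⟨fun a b => Subtype.ext (hAc a a.2 b b.2)⟩⟩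
  have hAp : IsPGroup p A := hP.to_subgroup A
  by_cases hcard : Nat.card {a : A // a ^ p = 1} ≤ p ^ s
  · left
    obtain ⟨S, hS, hSt⟩ := hABEL p A hAp s hcard
    let c : P →* MulAut A := MulAut.conjNormal
    have hcp : IsPGroup p c.range := hP.of_surjective c.rangeRestrict c.rangeRestrict_surjective
    obtain ⟨T, hT, hTt⟩ := hg p A hAp s hcard c.range c.range.subtype
      (Subgroup.subtype_injective _) hcp
    choose l hl using c.rangeRestrict_surjective
    refine ⟨S.image Subtype.val ∪ T.image l, ?_, ?_⟩
    · exact (Finset.card_union_le _ _).trans (Nat.add_le_add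
        (Finset.card_image_le.trans hS) (Finset.card_image_le.trans hT))
    · set H := Subgroup.closure ((S.image Subtype.val ∪ T.image l : Finset P) : Set P) with hH
      have hAH : A ≤ H := by
        intro x hx
        have h1 : (⟨x, hx⟩ : A) ∈ Subgroup.closure (S : Set A) := by rw [hSt]; trivial
        have h2 : x ∈ (Subgroup.closure (S : Set A)).map A.subtype := ⟨⟨x, hx⟩, h1, rfl⟩
        rw [MonoidHom.map_closure] at h2
        refine Subgroup.closure_mono ?_ h2
        rintro _ ⟨y, hy, rfl⟩
        simp only [Finset.coe_union, Finset.coe_image]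
        exact Or.inl ⟨y, hy, rfl⟩
      have hHc : ∀ x : P, ∃ y ∈ H, c y = c x := by
        intro x
        have h1 : c.rangeRestrict x ∈ Subgroup.closure (T : Set c.range) := by rw [hTt]; trivial
        have h2 : Subgroup.closure (T : Set c.range) ≤ H.map c.rangeRestrict := by
          rw [Subgroup.closure_le]
          intro q hq
          refine ⟨l q, Subgroup.subset_closure ?_, hl q⟩
          simp only [Finset.coe_union, Finset.coe_image]
          exact Or.inr ⟨q, hq, rfl⟩
        obtain ⟨y, hy, hyx⟩ := h2 h1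
        exact ⟨y, hy, congrArg Subtype.val hyx⟩
      rw [eq_top_iff]
      intro x _
      obtain ⟨y, hy, hyx⟩ := hHc x
      have hz : x * y⁻¹ ∈ Subgroup.centralizer (A : Set P) := by
        have h1 : c (x * y⁻¹) = 1 := by rw [map_mul, map_inv, hyx, mul_inv_cancel]
        rw [Subgroup.mem_centralizer_iff]
        intro a ha
        have h2 : c (x * y⁻¹) ⟨a, ha⟩ = ⟨a, ha⟩ := by rw [h1]; rfl
        have h3 : (x * y⁻¹) * a * (x * y⁻¹)⁻¹ = a := congrArg Subtype.val h2
        rw [mul_inv_eq_iff_eq_mul] at h3
        exact h3.symm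
      have h4 : x = (x * y⁻¹) * y := by group
      rw [h4]
      exact H.mul_mem (hAH (hAz hz)) hy
  · right
    push Not at hcard
    let Om : Subgroup A :=
      { carrier := {a | a ^ p = 1}
        one_mem' := one_pow p
        mul_mem' := by
          intro a b ha hb
          show (a * b) ^ p = 1
          rw [mul_pow, show a ^ p = 1 from ha, show b ^ p = 1 from hb, one_mul]
        inv_mem' := by
          intro a ha
          show a⁻¹ ^ p = 1
          rw [inv_pow, show a ^ p = 1 from ha, inv_one] }
    have hOm : p ^ s < Nat.card Om := hcard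
    obtain ⟨t, ht⟩ := IsPGroup.iff_card.1 (hAp.to_subgroup Om)
    have hp1 : 1 < p := (Fact.out : p.Prime).one_lt
    rw [ht] at hOm
    have hst : s ≤ t := ((Nat.pow_lt_pow_iff_right hp1).1 hOm).le
    obtain ⟨K, hK⟩ := Sylow.exists_subgroup_card_pow_prime (G := Om) p
      (n := s) (by rw [ht]; exact pow_dvd_pow p hst)
    refine ⟨(K.map Om.subtype).map A.subtype, ?_, ?_, ?_⟩
    · rintro _ ⟨a, -, rfl⟩ _ ⟨b, -, rfl⟩
      exact hAc a a.2 b b.2
    · rintro _ ⟨_, ⟨a, -, rfl⟩, rfl⟩
      have h1 : (a : A) ^ p = 1 := a.2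
      show ((a : A) : P) ^ p = 1
      rw [← Subgroup.coe_pow, h1, Subgroup.coe_one]
    · rw [Subgroup.card_map_of_injective A.subtype_injective,
        Subgroup.card_map_of_injective Om.subtype_injective, hK]


end Pool.Agent.Y396.SG
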